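import Mathlib

namespace Pool.Agent.MP_61d686_an

/-- The achievement set (set of subsums) of a family of reals. -/
def achievementSet {ι : Type} (x : ι → ℝ) : Set ℝ :=
  {s | ∃ ε : ι → ℝ, (∀ n, ε n = 0 ∨ ε n = 1) ∧ s = ∑' n, ε n * x n}

/-- The tail r_n, the sum of the terms with index larger than n. -/
noncomputable def tail (x : ℕ → ℝ) (n : ℕ) : ℝ := ∑' k, x (k + (n + 1))

/-- The points of E that form a one-point connected component of E. -/
def pointComponents (E : Set ℝ) : Set ℝ := {q | q ∈ E ∧ connectedComponentIn E q = {q}}

/-- Cantorval. -/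
def IsCantorval (E : Set ℝ) : Prop :=
  E.Nonempty ∧ IsCompact E ∧ closure (interior E) = E ∧
    ∀ p ∈ E, (connectedComponentIn E p).Nontrivial →
      AccPt (sInf (connectedComponentIn E p)) (Filter.principal (pointComponents E)) ∧
      AccPt (sSup (connectedComponentIn E p)) (Filter.principal (pointComponents E))

/-- Minimal representation: deleting any infinite set of terms changes the topological type. -/
def IsMinimalRep (x : ℕ → ℝ) : Prop :=
  ∀ A : Set ℕ, A.Infinite →
    IsEmpty (achievementSet (fun n : {n : ℕ // n ∉ A} => x n) ≃ₜ achievementSet x)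

end Pool.Agent.MP_61d686_an
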