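import Mathlib
import Pool.Agent.MP_61d686_an.Defs

namespace Pool.Agent.MP_61d686_an

open Set Filter Topology

/-- Finite subsums of the first n terms. -/
def finSums (y : ℕ → ℝ) (n : ℕ) : Set ℝ :=
  {s | ∃ ε : ℕ → ℝ, (∀ n, ε n = 0 ∨ ε n = 1) ∧ s = ∑ i ∈ Finset.range n, ε i * y i}

lemma summable_eps {ι : Type} {y : ι → ℝ} (hy0 : ∀ n, 0 ≤ y n) (hs : Summable y) {ε : ι → ℝ}
    (hε : ∀ n, ε n = 0 ∨ ε n = 1) : Summable fun n => ε n * y n := by
  refine Summable.of_nonneg_of_le (fun n => ?_) (fun n => ?_) hs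
  · rcases hε n with h | h <;> simp [h, hy0 n]
  · rcases hε n with h | h <;> simp [h, hy0 n]

lemma mem_bounds {ι : Type} {y : ι → ℝ} (hy0 : ∀ n, 0 ≤ y n) (hs : Summable y) {s : ℝ}
    (h : s ∈ achievementSet y) : 0 ≤ s ∧ s ≤ ∑' n, y n := by
  obtain ⟨ε, hε, rfl⟩ := h
  refine ⟨tsum_nonneg fun n => ?_, (summable_eps hy0 hs hε).tsum_le_tsum (fun n => ?_) hs⟩
  · rcases hε n with h | h <;> simp [h, hy0 n]
  · rcases hε n with h | h <;> simp [h, hy0 n]

lemma zero_mem {ι : Type} (y : ι → ℝ) : (0 : ℝ) ∈ achievementSet y :=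
  ⟨fun _ => 0, fun _ => Or.inl rfl, by simp⟩

lemma decomp {y : ℕ → ℝ} (hy0 : ∀ n, 0 ≤ y n) (hs : Summable y) (n : ℕ) {s : ℝ}
    (h : s ∈ achievementSet y) :
    ∃ f ∈ finSums y n, ∃ e ∈ achievementSet (fun k => y (k + n)), s = f + e := by
  obtain ⟨ε, hε, rfl⟩ := h
  refine ⟨_, ⟨ε, hε, rfl⟩, _, ⟨fun k => ε (k + n), fun k => hε _, rfl⟩, ?_⟩
  exact ((summable_eps hy0 hs hε).sum_add_tsum_nat_add n).symm

lemma compose {y : ℕ → ℝ} (hy0 : ∀ n, 0 ≤ y n) (hs : Summable y) (n : ℕ) {f e : ℝ}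
    (hf : f ∈ finSums y n) (he : e ∈ achievementSet (fun k => y (k + n))) :
    f + e ∈ achievementSet y := by
  obtain ⟨ε, hε, rfl⟩ := hf
  obtain ⟨η, hη, rfl⟩ := he
  have hζ : ∀ k, (fun k => if k < n then ε k else η (k - n)) k = 0 ∨
      (fun k => if k < n then ε k else η (k - n)) k = 1 := by
    intro k
    by_cases hk : k < n
    · simpa [hk] using hε k
    · simpa [hk] using hη (k - n)
  refine ⟨fun k => if k < n then ε k else η (k - n), hζ, ?_⟩
  rw [← (summable_eps hy0 hs hζ).sum_add_tsum_nat_add n]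
  congr 1
  · refine Finset.sum_congr rfl fun i hi => ?_
    simp [Finset.mem_range.1 hi]
  · refine tsum_congr fun k => ?_
    simp

lemma finSums_subset {y : ℕ → ℝ} (hy0 : ∀ n, 0 ≤ y n) (hs : Summable y) (n : ℕ) :
    finSums y n ⊆ achievementSet y := by
  intro f hf
  simpa using compose hy0 hs n hf (zero_mem _)

lemma finSums_zero (y : ℕ → ℝ) : finSums y 0 = {0} := by
  ext s
  constructor
  · rintro ⟨ε, -, rfl⟩; simp
  · rintro rfl; exact ⟨fun _ => 0, fun _ => Or.inl rfl, by simp⟩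

lemma finSums_succ (y : ℕ → ℝ) (n : ℕ) (s : ℝ) :
    s ∈ finSums y (n + 1) ↔ s ∈ finSums y n ∨ ∃ f ∈ finSums y n, s = f + y n := by
  constructor
  · rintro ⟨ε, hε, rfl⟩
    rw [Finset.sum_range_succ]
    rcases hε n with h | h
    · left; exact ⟨ε, hε, by simp [h]⟩
    · right; exact ⟨_, ⟨ε, hε, rfl⟩, by simp [h]⟩
  · have aux : ∀ (ε : ℕ → ℝ) (v : ℝ), ∑ i ∈ Finset.range (n + 1), Function.update ε n v i * y i
        = ∑ i ∈ Finset.range n, ε i * y i + v * y n := by
      intro ε v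
      rw [Finset.sum_range_succ, Function.update_self]
      congr 1
      refine Finset.sum_congr rfl fun i hi => ?_
      rw [Function.update_of_ne (Finset.mem_range.1 hi).ne]
    have aux2 : ∀ (ε : ℕ → ℝ) (v : ℝ), (∀ n, ε n = 0 ∨ ε n = 1) → (v = 0 ∨ v = 1) →
        ∀ k, Function.update ε n v k = 0 ∨ Function.update ε n v k = 1 := by
      intro ε v hε hv k
      by_cases hk : k = n
      · subst hk; simpa using hv
      · rw [Function.update_of_ne hk]; exact hε k
    rintro (⟨ε, hε, rfl⟩ | ⟨f, ⟨ε, hε, rfl⟩, rfl⟩)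
    · exact ⟨_, aux2 ε 0 hε (Or.inl rfl), by rw [aux]; simp⟩
    · exact ⟨_, aux2 ε 1 hε (Or.inr rfl), by rw [aux]; simp⟩

lemma finSums_finite (y : ℕ → ℝ) (n : ℕ) : (finSums y n).Finite := by
  induction n with
  | zero => rw [finSums_zero]; exact finite_singleton _
  | succ n ih =>
    refine (ih.union (ih.image (fun f => f + y n))).subset ?_
    intro s hs
    rcases (finSums_succ y n s).1 hs with h | ⟨f, hf, rfl⟩
    · exact Or.inl h
    · exact Or.inr ⟨f, hf, rfl⟩

lemma finSums_zero_or_ge {y : ℕ → ℝ} (hy0 : ∀ n, 0 ≤ y n) (n : ℕ) (v : ℝ)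
    (hv : ∀ i < n, v ≤ y i) {f : ℝ} (hf : f ∈ finSums y n) : f = 0 ∨ v ≤ f := by
  induction n generalizing f with
  | zero => rw [finSums_zero] at hf; exact Or.inl hf
  | succ n ih =>
    have ih' := fun f hf => ih (f := f) (fun i hi => hv i (by omega)) hf
    rcases (finSums_succ y n f).1 hf with h | ⟨g, hg, rfl⟩
    · exact ih' f h
    · right
      have h1 := hv n (by omega)
      have h2 : 0 ≤ g := by
        obtain ⟨ε, hε, rfl⟩ := hg
        refine Finset.sum_nonneg fun i _ => ?_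
        rcases hε i with h | h <;> simp [h, hy0 i]
      linarith

lemma isCompact_ach {y : ℕ → ℝ} (hy0 : ∀ n, 0 ≤ y n) (hs : Summable y) :
    IsCompact (achievementSet y) := by
  have hK : IsCompact (Set.pi univ (fun _ : ℕ => ({0, 1} : Set ℝ))) :=
    isCompact_univ_pi fun _ => (toFinite _).isCompact
  have hc : ContinuousOn (fun ε : ℕ → ℝ => ∑' n, ε n * y n)
      (Set.pi univ (fun _ : ℕ => ({0, 1} : Set ℝ))) := by
    refine continuousOn_tsum (u := y) (fun n => ?_) hs (fun n ε hε => ?_)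
    · exact ((continuous_apply n).mul continuous_const).continuousOn
    · rcases hε n (mem_univ _) with h | h
      · simp [h, hy0 n]
      · rw [mem_singleton_iff] at h
        simp [h, abs_of_nonneg (hy0 n)]
  convert hK.image_of_continuousOn hc using 1
  ext s
  constructor
  · rintro ⟨ε, hε, rfl⟩
    exact ⟨ε, fun n _ => hε n, rfl⟩
  · rintro ⟨ε, hε, rfl⟩
    exact ⟨ε, fun n => hε n (mem_univ _), rfl⟩

lemma symm_mem {y : ℕ → ℝ} (hy0 : ∀ n, 0 ≤ y n) (hs : Summable y) {s : ℝ}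
    (h : s ∈ achievementSet y) : (∑' n, y n) - s ∈ achievementSet y := by
  obtain ⟨ε, hε, rfl⟩ := h
  refine ⟨fun n => 1 - ε n, fun n => ?_, ?_⟩
  · rcases hε n with h | h <;> simp [h]
  · rw [← hs.tsum_sub (summable_eps hy0 hs hε)]
    refine tsum_congr fun n => by ring

lemma gap_tail {y : ℕ → ℝ} (hy0 : ∀ n, 0 ≤ y n) (hs : Summable y) (ha : Antitone y) {m n : ℕ}
    (hmn : m ≤ n) {s : ℝ} (h : s ∈ achievementSet (fun k => y (k + m))) :
    s ≤ tail y n ∨ y n ≤ s := by
  have hs' : Summable fun k => y (k + m) := (summable_nat_add_iff m).2 hs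
  obtain ⟨f, hf, e, he, rfl⟩ := decomp (fun k => hy0 (k + m)) hs' (n + 1 - m) h
  have he' : (fun k => y (k + (n + 1 - m) + m)) = fun k => y (k + (n + 1)) := by
    ext k; congr 1; omega
  simp only [he'] at he
  have hb := mem_bounds (fun k => hy0 (k + (n + 1))) ((summable_nat_add_iff (n + 1)).2 hs) he
  rcases finSums_zero_or_ge (fun k => hy0 (k + m)) (n + 1 - m) (y n)
    (fun i hi => ha (by omega)) hf with h0 | h0
  · left; rw [h0, zero_add]; exact hb.2
  · right; linarith [hb.1]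

lemma gaps_right {y : ℕ → ℝ} (hy0 : ∀ n, 0 ≤ y n) (hs : Summable y) (ha : Antitone y)
    (hK : ∀ m, ∃ n ≥ m, tail y n < y n) {c d : ℝ} (hcd : c < d) (hd : d ∈ achievementSet y)
    (hgap : ∀ z, c < z → z < d → z ∉ achievementSet y) {δ : ℝ} (hδ : 0 < δ) :
    ∃ z, d < z ∧ z < d + δ ∧ z ∉ achievementSet y := by
  have htail : Tendsto (fun n => ∑' k, y (k + n)) atTop (𝓝 0) := tendsto_sum_nat_add y
  obtain ⟨m, hm⟩ := (htail.eventually (gt_mem_nhds (show (0 : ℝ) < (d - c) / 2 by linarith))).exists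
  have hsm : Summable fun k => y (k + m) := (summable_nat_add_iff m).2 hs
  -- an isolation radius for d among the finite sums
  obtain ⟨η, hη, hηδ, hiso⟩ : ∃ η > 0, η ≤ δ ∧ ∀ f ∈ finSums y m, d < f → d + η ≤ f := by
    have hfin : ({f | f ∈ finSums y m ∧ d < f} ∪ {d + δ}).Finite :=
      ((finSums_finite y m).subset fun f hf => hf.1).union (finite_singleton _)
    obtain ⟨g, hg, hmin⟩ := Set.exists_min_image _ id hfin ⟨d + δ, Or.inr rfl⟩
    refine ⟨g - d, ?_, ?_, fun f hf hdf => ?_⟩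
    · rcases hg with hg | hg
      · linarith [hg.2]
      · rw [mem_singleton_iff] at hg; linarith
    · have := hmin (d + δ) (Or.inr rfl)
      simp only [id] at this
      linarith
    · have := hmin f (Or.inl ⟨hf, hdf⟩)
      simp only [id] at this
      linarith
  have hy : Tendsto y atTop (𝓝 0) := hs.tendsto_atTop_zero
  obtain ⟨m', hm'⟩ := eventually_atTop.1 (hy.eventually (gt_mem_nhds hη))
  obtain ⟨n, hn, hKn⟩ := hK (max m m')
  have hn1 : m ≤ n := le_trans (le_max_left _ _) hn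
  have hn2 : y n < η := hm' n (le_trans (le_max_right _ _) hn)
  have ht0 : 0 ≤ tail y n := tsum_nonneg fun k => hy0 _
  refine ⟨d + (tail y n + y n) / 2, by linarith, by linarith, fun hz => ?_⟩
  obtain ⟨f, hf, e, he, hfe⟩ := decomp hy0 hs m hz
  have hb := mem_bounds (fun k => hy0 (k + m)) hsm he
  have hfE := finSums_subset hy0 hs m hf
  rcases lt_trichotomy f d with h | h | h
  · have : f ≤ c := by
      by_contra h'
      exact hgap f (not_le.1 h') h hfE
    linarith [hb.2]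
  · rcases gap_tail hy0 hs ha hn1 he with h' | h' <;> linarith
  · have := hiso f hf h
    linarith [hb.1]

lemma gaps_left {y : ℕ → ℝ} (hy0 : ∀ n, 0 ≤ y n) (hs : Summable y) (ha : Antitone y)
    (hK : ∀ m, ∃ n ≥ m, tail y n < y n) {c d : ℝ} (hcd : d < c) (hd : d ∈ achievementSet y)
    (hgap : ∀ z, d < z → z < c → z ∉ achievementSet y) {δ : ℝ} (hδ : 0 < δ) :
    ∃ z, d - δ < z ∧ z < d ∧ z ∉ achievementSet y := by
  obtain ⟨z, hz1, hz2, hz3⟩ := gaps_right hy0 hs ha hK (c := (∑' n, y n) - c)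
    (d := (∑' n, y n) - d) (by linarith) (symm_mem hy0 hs hd) (fun z h1 h2 hz => by
      exact hgap ((∑' n, y n) - z) (by linarith) (by linarith) (symm_mem hy0 hs hz)) hδ
  refine ⟨(∑' n, y n) - z, by linarith, by linarith, fun h => hz3 ?_⟩
  simpa using symm_mem hy0 hs h

lemma point_comp {E : Set ℝ} {q : ℝ} (hq : q ∈ E)
    (h1 : ∀ δ > 0, ∃ z, q < z ∧ z < q + δ ∧ z ∉ E) (h2 : ∀ δ > 0, ∃ z, q - δ < z ∧ z < q ∧ z ∉ E) :
    q ∈ pointComponents E := by
  refine ⟨hq, ?_⟩
  have hoc : OrdConnected (connectedComponentIn E q) :=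
    isPreconnected_connectedComponentIn.ordConnected
  have hqm : q ∈ connectedComponentIn E q := mem_connectedComponentIn hq
  refine eq_singleton_iff_unique_mem.2 ⟨hqm, fun p hp => ?_⟩
  rcases lt_trichotomy p q with h | h | h
  · obtain ⟨z, hz1, hz2, hz3⟩ := h2 (q - p) (by linarith)
    exact absurd (connectedComponentIn_subset E q (hoc.out hp hqm ⟨by linarith, hz2.le⟩)) hz3
  · exact h
  · obtain ⟨z, hz1, hz2, hz3⟩ := h1 (p - q) (by linarith)
    exact absurd (connectedComponentIn_subset E q (hoc.out hqm hp ⟨hz1.le, by linarith⟩)) hz3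

lemma endpoints {E : Set ℝ} (hE : IsCompact E)
    (hR : ∀ c d, c < d → d ∈ E → (∀ z, c < z → z < d → z ∉ E) →
      ∀ δ > 0, ∃ z, d < z ∧ z < d + δ ∧ z ∉ E)
    (hL : ∀ c d, d < c → d ∈ E → (∀ z, d < z → z < c → z ∉ E) →
      ∀ δ > 0, ∃ z, d - δ < z ∧ z < d ∧ z ∉ E)
    (p : ℝ) (hp : p ∈ E) (hnt : (connectedComponentIn E p).Nontrivial) :
    AccPt (sInf (connectedComponentIn E p)) (principal (pointComponents E)) ∧
      AccPt (sSup (connectedComponentIn E p)) (principal (pointComponents E)) := by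
  set C := connectedComponentIn E p with hC
  have hCE : C ⊆ E := connectedComponentIn_subset E p
  have hoc : OrdConnected C := isPreconnected_connectedComponentIn.ordConnected
  have hpC : p ∈ C := mem_connectedComponentIn hp
  have hne : C.Nonempty := ⟨p, hpC⟩
  have hbb : BddBelow C := hE.bddBelow.mono hCE
  have hba : BddAbove C := hE.bddAbove.mono hCE
  set a := sInf C with ha
  set b := sSup C with hb
  have hab : a < b := by
    obtain ⟨u, hu, v, hv, huv⟩ := hnt
    rcases lt_or_gt_of_ne huv with h | h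
    · exact lt_of_le_of_lt (csInf_le hbb hu) (lt_of_lt_of_le h (le_csSup hba hv))
    · exact lt_of_le_of_lt (csInf_le hbb hv) (lt_of_lt_of_le h (le_csSup hba hu))
  have hIoo : Ioo a b ⊆ C := by
    intro z hz
    obtain ⟨u, hu, huz⟩ := exists_lt_of_csInf_lt hne hz.1
    obtain ⟨v, hv, hvz⟩ := exists_lt_of_lt_csSup hne hz.2
    exact hoc.out hu hv ⟨huz.le, hvz.le⟩
  have hIcc : Icc a b ⊆ E := by
    rw [← closure_Ioo hab.ne]
    exact closure_minimal (hIoo.trans hCE) hE.isClosed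
  have hmid : (a + b) / 2 ∈ C := hIoo ⟨by linarith, by linarith⟩
  have hmax : ∀ u v, u ≤ a → b ≤ v → Icc u v ⊆ E → Icc u v ⊆ C := by
    intro u v hu hv huv
    have h1 : Icc u v ⊆ connectedComponentIn E ((a + b) / 2) :=
      isPreconnected_Icc.subset_connectedComponentIn ⟨by linarith, by linarith⟩ huv
    rwa [← connectedComponentIn_eq hmid] at h1
  constructor
  · rw [accPt_iff_nhds]
    intro U hU
    obtain ⟨δ, hδ, hball⟩ := Metric.mem_nhds_iff.1 hU
    obtain ⟨z, hz1, hz2, hz3⟩ : ∃ z, a - δ < z ∧ z < a ∧ z ∉ E := by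
      by_contra hcon
      push Not at hcon
      have h1 : Icc (a - δ / 2) b ⊆ E := by
        intro w hw
        rcases lt_or_ge w a with h | h
        · exact hcon w (by linarith [hw.1]) h
        · exact hIcc ⟨h, hw.2⟩
      have h2 := hmax _ _ (by linarith) le_rfl h1 ⟨le_rfl, by linarith⟩
      have := csInf_le hbb h2
      linarith
    have hK : IsCompact (E ∩ Ici z) := hE.inter_right isClosed_Ici
    obtain ⟨q, hq, hqmin⟩ := hK.exists_isLeast ⟨a, hIcc ⟨le_rfl, hab.le⟩, hz2.le⟩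
    have hzq : z < q := lt_of_le_of_ne hq.2 (by rintro rfl; exact hz3 hq.1)
    have hqa : q ≤ a := hqmin ⟨hIcc ⟨le_rfl, hab.le⟩, hz2.le⟩
    have hgap : ∀ w, z < w → w < q → w ∉ E := fun w h1 h2 hw =>
      absurd (hqmin ⟨hw, h1.le⟩) (not_le.2 h2)
    have hr := hR z q hzq hq.1 hgap
    have hne' : q ≠ a := by
      rintro rfl
      obtain ⟨w, hw1, hw2, hw3⟩ := hr (b - a) (by linarith)
      exact hw3 (hIcc ⟨hw1.le, by linarith⟩)
    refine ⟨q, ⟨hball ?_, point_comp hq.1 hr fun η hη => ?_⟩, hne'⟩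
    · rw [Metric.mem_ball, Real.dist_eq, abs_lt]
      constructor <;> linarith
    · refine ⟨max (q - η / 2) ((z + q) / 2), ?_, ?_, hgap _ ?_ ?_⟩
      · exact lt_max_of_lt_left (by linarith)
      · exact max_lt (by linarith) (by linarith)
      · exact lt_max_of_lt_right (by linarith)
      · exact max_lt (by linarith) (by linarith)
  · rw [accPt_iff_nhds]
    intro U hU
    obtain ⟨δ, hδ, hball⟩ := Metric.mem_nhds_iff.1 hU
    obtain ⟨z, hz1, hz2, hz3⟩ : ∃ z, b < z ∧ z < b + δ ∧ z ∉ E := by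
      by_contra hcon
      push Not at hcon
      have h1 : Icc a (b + δ / 2) ⊆ E := by
        intro w hw
        rcases lt_or_ge b w with h | h
        · exact hcon w h (by linarith [hw.2])
        · exact hIcc ⟨hw.1, h⟩
      have h2 := hmax _ _ le_rfl (by linarith) h1 ⟨by linarith, le_rfl⟩
      have := le_csSup hba h2
      linarith
    have hK : IsCompact (E ∩ Iic z) := hE.inter_right isClosed_Iic
    obtain ⟨q, hq, hqmax⟩ := hK.exists_isGreatest ⟨b, hIcc ⟨hab.le, le_rfl⟩, hz1.le⟩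
    have hzq : q < z := lt_of_le_of_ne hq.2 (by rintro rfl; exact hz3 hq.1)
    have hqb : b ≤ q := hqmax ⟨hIcc ⟨hab.le, le_rfl⟩, hz1.le⟩
    have hgap : ∀ w, q < w → w < z → w ∉ E := fun w h1 h2 hw =>
      absurd (hqmax ⟨hw, h2.le⟩) (not_le.2 h1)
    have hl := hL z q hzq hq.1 hgap
    have hne' : q ≠ b := by
      rintro rfl
      obtain ⟨w, hw1, hw2, hw3⟩ := hl (b - a) (by linarith)
      exact hw3 (hIcc ⟨by linarith, hw2.le⟩)
    refine ⟨q, ⟨hball ?_, point_comp hq.1 (fun η hη => ?_) hl⟩, hne'⟩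
    · rw [Metric.mem_ball, Real.dist_eq, abs_lt]
      constructor <;> linarith
    · refine ⟨min (q + η / 2) ((z + q) / 2), ?_, ?_, hgap _ ?_ ?_⟩
      · exact lt_min (by linarith) (by linarith)
      · exact min_lt_of_left_lt (by linarith)
      · exact lt_min (by linarith) (by linarith)
      · exact min_lt_of_right_lt (by linarith)

end Pool.Agent.MP_61d686_an
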