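import Mathlib
import Pool.Agent.MP_61d686_an.General

namespace Pool.Agent.MP_61d686_an

open Set Filter Topology MeasureTheory

/-- The multigeometric sequence with block 3, 2, 2 and ratio 1/6. -/
noncomputable def ex (n : ℕ) : ℝ := (if n % 3 = 0 then 3 else 2) * (1 / 6 : ℝ) ^ (n / 3)

lemma ex0 (k : ℕ) : ex (3 * k) = 3 * (1 / 6 : ℝ) ^ k := by
  have h1 : 3 * k % 3 = 0 := by omega
  have h2 : 3 * k / 3 = k := by omega
  simp [ex, h1, h2]

lemma ex1 (k : ℕ) : ex (3 * k + 1) = 2 * (1 / 6 : ℝ) ^ k := by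
  have h1 : (3 * k + 1) % 3 = 1 := by omega
  have h2 : (3 * k + 1) / 3 = k := by omega
  simp only [ex, h1, h2]
  simp

lemma ex2 (k : ℕ) : ex (3 * k + 2) = 2 * (1 / 6 : ℝ) ^ k := by
  have h1 : (3 * k + 2) % 3 = 2 := by omega
  have h2 : (3 * k + 2) / 3 = k := by omega
  simp only [ex, h1, h2]
  simp

lemma ex_pos (n : ℕ) : 0 < ex n := by
  unfold ex
  split_ifs <;> positivity

lemma ex_shift (k j : ℕ) : ex (j + 3 * k) = (1 / 6 : ℝ) ^ k * ex j := by
  have h1 : (j + 3 * k) % 3 = j % 3 := by omega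
  have h2 : (j + 3 * k) / 3 = j / 3 + k := by omega
  simp only [ex, h1, h2, pow_add]
  ring

lemma ex_antitone : Antitone ex := by
  refine antitone_nat_of_succ_le fun n => ?_
  obtain ⟨k, hk | hk | hk⟩ : ∃ k, n = 3 * k ∨ n = 3 * k + 1 ∨ n = 3 * k + 2 := ⟨n / 3, by omega⟩
  · subst hk
    rw [ex0, ex1]
    have : 0 < (1 / 6 : ℝ) ^ k := by positivity
    linarith
  · subst hk
    rw [ex1, show 3 * k + 1 + 1 = 3 * k + 2 by ring, ex2]
  · subst hk
    rw [ex2, show 3 * k + 2 + 1 = 3 * (k + 1) by ring, ex0, pow_succ]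
    have : 0 < (1 / 6 : ℝ) ^ k := by positivity
    linarith

lemma ex_partial_sum (k : ℕ) :
    ∑ i ∈ Finset.range (3 * k), ex i = 42 / 5 * (1 - (1 / 6 : ℝ) ^ k) := by
  induction k with
  | zero => simp
  | succ k ih =>
    rw [show 3 * (k + 1) = 3 * k + 1 + 1 + 1 by ring, Finset.sum_range_succ, Finset.sum_range_succ,
      Finset.sum_range_succ, ih, ex0, ex1, show 3 * k + 1 + 1 = 3 * k + 2 by ring, ex2, pow_succ]
    ring

lemma ex_summable : Summable ex := by
  refine summable_of_sum_range_le (c := 42 / 5) (fun n => (ex_pos n).le) fun n => ?_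
  have h1 : ∑ i ∈ Finset.range n, ex i ≤ ∑ i ∈ Finset.range (3 * n), ex i :=
    Finset.sum_le_sum_of_subset_of_nonneg (Finset.range_mono (by omega))
      fun i _ _ => (ex_pos i).le
  rw [ex_partial_sum] at h1
  have : 0 < (1 / 6 : ℝ) ^ n := by positivity
  linarith

lemma ex_tsum : ∑' n, ex n = 42 / 5 := by
  have h1 := ex_summable.sum_add_tsum_nat_add 3
  have h2 : ∑' n, ex (n + 3) = 1 / 6 * ∑' n, ex n := by
    rw [← tsum_mul_left]
    refine tsum_congr fun n => ?_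
    simpa using ex_shift 1 n
  have h3 := ex_partial_sum 1
  simp only [mul_one, pow_one] at h3
  rw [h2, h3] at h1
  linarith

lemma ex_tail3 (k : ℕ) : ∑' j, ex (j + 3 * k) = 42 / 5 * (1 / 6 : ℝ) ^ k := by
  simp only [ex_shift]
  rw [tsum_mul_left, ex_tsum]
  ring

lemma ex_tail_a (k : ℕ) : tail ex (3 * k + 2) = 7 / 5 * (1 / 6 : ℝ) ^ k := by
  unfold tail
  rw [show 3 * k + 2 + 1 = 3 * (k + 1) by ring, ex_tail3, pow_succ]
  ring

lemma ex_tail_b (k : ℕ) : tail ex (3 * k + 1) = 17 / 5 * (1 / 6 : ℝ) ^ k := by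
  have h := ex_tail_a k
  unfold tail at h ⊢
  have hs : Summable fun j => ex (j + (3 * k + 1 + 1)) := (summable_nat_add_iff _).2 ex_summable
  rw [hs.tsum_eq_zero_add]
  have e1 : (fun b => ex (b + 1 + (3 * k + 1 + 1))) = fun b => ex (b + (3 * k + 2 + 1)) := by
    ext b; congr 1; ring
  simp only [e1, h, zero_add]
  rw [show 3 * k + 1 + 1 = 3 * k + 2 by ring, ex2]
  ring

lemma ex_kakeya (m : ℕ) : ∃ n ≥ m, tail ex n < ex n := by
  refine ⟨3 * m + 2, by omega, ?_⟩
  rw [ex_tail_a, ex2]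
  have : 0 < (1 / 6 : ℝ) ^ m := by positivity
  linarith

lemma ex_infinite : {n | ex n < tail ex (n + 1)}.Infinite := by
  refine Set.infinite_of_forall_exists_gt fun m => ⟨3 * (m + 1), ?_, by omega⟩
  show ex (3 * (m + 1)) < tail ex (3 * (m + 1) + 1)
  rw [ex_tail_b, ex0]
  have : 0 < (1 / 6 : ℝ) ^ (m + 1) := by positivity
  linarith

lemma digit_mem (n : ℕ) {f : ℝ} (hf : f ∈ finSums ex (3 * n)) (d : ℕ)
    (hd : d = 0 ∨ d = 2 ∨ d = 3 ∨ d = 4 ∨ d = 5 ∨ d = 7) :
    f + d * (1 / 6 : ℝ) ^ n ∈ finSums ex (3 * (n + 1)) := by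
  have A0 : ∀ {g : ℝ} {m : ℕ}, g ∈ finSums ex m → g ∈ finSums ex (m + 1) :=
    fun h => (finSums_succ _ _ _).2 (Or.inl h)
  have A1 : ∀ {g : ℝ} {m : ℕ}, g ∈ finSums ex m → g + ex m ∈ finSums ex (m + 1) :=
    fun h => (finSums_succ _ _ _).2 (Or.inr ⟨_, h, rfl⟩)
  have e0 := ex0 n
  have e1 := ex1 n
  have e2 : ex (3 * n + 1 + 1) = 2 * (1 / 6 : ℝ) ^ n := ex2 n
  rw [show 3 * (n + 1) = 3 * n + 1 + 1 + 1 by ring]
  rcases hd with rfl | rfl | rfl | rfl | rfl | rfl
  · convert A0 (A0 (A0 hf)) using 1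
    simp
  · convert A1 (A0 (A0 hf)) using 1
    rw [e2]; push_cast; ring
  · convert A0 (A0 (A1 hf)) using 1
    rw [e0]; push_cast; ring
  · convert A1 (A1 (A0 hf)) using 1
    rw [e1, e2]; push_cast; ring
  · convert A1 (A0 (A1 hf)) using 1
    rw [e0, e2]; push_cast; ring
  · convert A1 (A1 (A1 hf)) using 1
    rw [e0, e1, e2]; push_cast; ring

lemma grid_mem (n : ℕ) : ∀ j : ℕ, 2 * 6 ^ n ≤ 5 * j + 2 → j + 1 ≤ 6 ^ n →
    (j : ℝ) * 6 * (1 / 6 : ℝ) ^ n ∈ finSums ex (3 * n) := by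
  induction n with
  | zero =>
    intro j h1 h2
    have : j = 0 := by simpa using h2
    subst this
    simp [finSums_zero]
  | succ n ih =>
    intro j h1 h2
    have hP : 6 ^ n % 5 = 1 := by
      rw [Nat.pow_mod]; simp
    rw [pow_succ] at h1 h2
    generalize 6 ^ n = P at *
    obtain ⟨j', d, hd, hj, h3, h4⟩ : ∃ j' d : ℕ, (d = 0 ∨ d = 2 ∨ d = 3 ∨ d = 4 ∨ d = 5 ∨ d = 7) ∧
        j = 6 * j' + d ∧ 2 * P ≤ 5 * j' + 2 ∧ j' + 1 ≤ P := by
      by_cases h : j % 6 = 1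
      · exact ⟨j / 6 - 1, 7, by omega, by omega, by omega, by omega⟩
      · exact ⟨j / 6, j % 6, by omega, by omega, by omega, by omega⟩
    have h5 := digit_mem n (ih j' h3 h4) d hd
    convert h5 using 1
    rw [hj, pow_succ]
    push_cast
    ring

lemma Icc_subset_ex : Icc (3 : ℝ) 4 ⊆ achievementSet ex := by
  intro t ht
  have hcl := (isCompact_ach (fun n => (ex_pos n).le) ex_summable).isClosed
  rw [← hcl.closure_eq, Metric.mem_closure_iff]
  intro ε hε
  obtain ⟨n, hn⟩ := exists_pow_lt_of_lt_one hε (show (1 / 6 : ℝ) < 1 by norm_num)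
  have hP : (0 : ℝ) < 6 ^ n := by positivity
  have hP1 : (1 : ℝ) ≤ 6 ^ n := one_le_pow₀ (by norm_num)
  have ht0 : 0 ≤ t * 6 ^ n := by nlinarith [ht.1]
  have h1 : (⌊t * 6 ^ n⌋₊ : ℝ) ≤ t * 6 ^ n := Nat.floor_le ht0
  have h2 : t * 6 ^ n < (⌊t * 6 ^ n⌋₊ : ℝ) + 1 := Nat.lt_floor_add_one _
  have h3 : 2 * 6 ^ (n + 1) ≤ 5 * ⌊t * 6 ^ n⌋₊ + 2 := by
    have : (2 * 6 ^ (n + 1) : ℝ) ≤ 5 * ⌊t * 6 ^ n⌋₊ + 2 := by
      rw [pow_succ]; nlinarith [ht.1]
    exact_mod_cast this
  have h4 : ⌊t * 6 ^ n⌋₊ + 1 ≤ 6 ^ (n + 1) := by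
    have : (⌊t * 6 ^ n⌋₊ + 1 : ℝ) ≤ 6 ^ (n + 1) := by
      rw [pow_succ]; nlinarith [ht.2]
    exact_mod_cast this
  refine ⟨_, finSums_subset (fun n => (ex_pos n).le) ex_summable _ (grid_mem (n + 1) _ h3 h4), ?_⟩
  have e1 : (1 / 6 : ℝ) ^ n * 6 ^ n = 1 := by rw [← mul_pow]; simp
  have hq : (0 : ℝ) < (1 / 6 : ℝ) ^ n := by positivity
  have e2 : t - (⌊t * 6 ^ n⌋₊ : ℝ) * 6 * (1 / 6 : ℝ) ^ (n + 1)
      = (t * 6 ^ n - ⌊t * 6 ^ n⌋₊) * (1 / 6 : ℝ) ^ n := by
    rw [pow_succ (1 / 6 : ℝ) n]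
    linear_combination (-t) * e1
  rw [Real.dist_eq, e2, abs_of_nonneg (by nlinarith)]
  nlinarith

lemma scale_mem (k : ℕ) {s : ℝ} (hs : s ∈ achievementSet ex) :
    (1 / 6 : ℝ) ^ k * s ∈ achievementSet (fun j => ex (j + 3 * k)) := by
  obtain ⟨ε, hε, rfl⟩ := hs
  refine ⟨ε, hε, ?_⟩
  rw [← tsum_mul_left]
  refine tsum_congr fun n => ?_
  simp only [ex_shift]
  ring

lemma closure_interior_ex : closure (interior (achievementSet ex)) = achievementSet ex := by
  have h0 : ∀ n, 0 ≤ ex n := fun n => (ex_pos n).le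
  have hcl := (isCompact_ach h0 ex_summable).isClosed
  refine Subset.antisymm (closure_minimal interior_subset hcl) fun s hs => ?_
  rw [Metric.mem_closure_iff]
  intro ε hε
  obtain ⟨n, hn⟩ := exists_pow_lt_of_lt_one (show 0 < ε / 10 by linarith)
    (show (1 / 6 : ℝ) < 1 by norm_num)
  have hq : (0 : ℝ) < (1 / 6 : ℝ) ^ n := by positivity
  obtain ⟨f, hf, e, he, rfl⟩ := decomp h0 ex_summable (3 * n) hs
  have hb := mem_bounds (fun k => h0 (k + 3 * n)) ((summable_nat_add_iff _).2 ex_summable) he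
  rw [ex_tail3] at hb
  refine ⟨f + 7 / 2 * (1 / 6 : ℝ) ^ n, ?_, ?_⟩
  · rw [mem_interior]
    refine ⟨Ioo (f + 3 * (1 / 6 : ℝ) ^ n) (f + 4 * (1 / 6 : ℝ) ^ n), fun z hz => ?_, isOpen_Ioo,
      by constructor <;> linarith⟩
    have h1 : (z - f) / (1 / 6 : ℝ) ^ n ∈ Icc (3 : ℝ) 4 := by
      constructor
      · rw [le_div_iff₀ hq]; linarith [hz.1]
      · rw [div_le_iff₀ hq]; linarith [hz.2]
    have h2 := compose h0 ex_summable (3 * n) hf (scale_mem n (Icc_subset_ex h1))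
    rwa [mul_div_cancel₀ _ hq.ne', add_sub_cancel] at h2
  · rw [Real.dist_eq, abs_lt]
    constructor <;> linarith [hb.1, hb.2]

lemma isCantorval_ex : IsCantorval (achievementSet ex) := by
  have h0 : ∀ n, 0 ≤ ex n := fun n => (ex_pos n).le
  refine ⟨⟨0, zero_mem _⟩, isCompact_ach h0 ex_summable, closure_interior_ex, fun p hp hnt => ?_⟩
  exact endpoints (isCompact_ach h0 ex_summable)
    (fun c d hcd hd hgap δ hδ => gaps_right h0 ex_summable ex_antitone ex_kakeya hcd hd hgap hδ)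
    (fun c d hcd hd hgap δ hδ => gaps_left h0 ex_summable ex_antitone ex_kakeya hcd hd hgap hδ)
    p hp hnt

lemma vol_le_of_cover {y : ℕ → ℝ} (hy0 : ∀ n, 0 ≤ y n) (hs : Summable y) (n : ℕ) (T : Finset ℝ)
    (hT : finSums y n ⊆ T) :
    volume (achievementSet y) ≤ T.card * volume (achievementSet fun k => y (k + n)) := by
  have h1 : achievementSet y ⊆ ⋃ f ∈ T, (fun z => -f + z) ⁻¹' (achievementSet fun k => y (k + n)) := by
    intro s hs'
    obtain ⟨f, hf, e, he, rfl⟩ := decomp hy0 hs n hs'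
    simp only [mem_iUnion]
    exact ⟨f, hT hf, by simpa using he⟩
  refine (measure_mono h1).trans ((measure_biUnion_finset_le _ _).trans ?_)
  simp only [measure_preimage_add, Finset.sum_const, nsmul_eq_mul, le_refl]

lemma finSums_three (y : ℕ → ℝ) {s : ℝ} (h : s ∈ finSums y 3) :
    s = 0 ∨ s = y 0 ∨ s = y 1 ∨ s = y 0 + y 1 ∨ s = y 2 ∨ s = y 0 + y 2 ∨ s = y 1 + y 2 ∨
      s = y 0 + y 1 + y 2 := by
  obtain ⟨ε, hε, rfl⟩ := h
  simp only [Finset.sum_range_succ, Finset.range_zero, Finset.sum_empty]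
  rcases hε 0 with h0 | h0 <;> rcases hε 1 with h1 | h1 <;> rcases hε 2 with h2 | h2 <;>
    simp [h0, h1, h2]

lemma vol_four {y : ℕ → ℝ} (hy0 : ∀ n, 0 ≤ y n) (hs : Summable y)
    (h : y 0 = 0 ∨ y 1 = 0 ∨ y 2 = 0) :
    volume (achievementSet y) ≤ 4 * volume (achievementSet fun k => y (k + 3)) := by
  have key : ∀ u v : ℝ, finSums y 3 ⊆ ({0, u, v, u + v} : Finset ℝ) →
      volume (achievementSet y) ≤ 4 * volume (achievementSet fun k => y (k + 3)) := by
    intro u v huv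
    refine (vol_le_of_cover hy0 hs 3 _ huv).trans ?_
    gcongr
    exact_mod_cast Finset.card_le_four
  rcases h with h | h | h
  · refine key (y 1) (y 2) fun s hs' => ?_
    have := finSums_three y hs'
    simp only [h, zero_add, add_zero] at this
    simp only [Finset.coe_insert, Finset.coe_singleton, mem_insert_iff, mem_singleton_iff]
    tauto
  · refine key (y 0) (y 2) fun s hs' => ?_
    have := finSums_three y hs'
    simp only [h, zero_add, add_zero] at this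
    simp only [Finset.coe_insert, Finset.coe_singleton, mem_insert_iff, mem_singleton_iff]
    tauto
  · refine key (y 0) (y 1) fun s hs' => ?_
    have := finSums_three y hs'
    simp only [h, zero_add, add_zero] at this
    simp only [Finset.coe_insert, Finset.coe_singleton, mem_insert_iff, mem_singleton_iff]
    tauto

lemma vol_six {y : ℕ → ℝ} (hy0 : ∀ n, 0 ≤ y n) (hs : Summable y) (h : y 2 = y 1) :
    volume (achievementSet y) ≤ 6 * volume (achievementSet fun k => y (k + 3)) := by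
  refine (vol_le_of_cover hy0 hs 3
    {0, y 0, y 1, y 0 + y 1, y 1 + y 1, y 0 + y 1 + y 1} fun s hs' => ?_).trans ?_
  · have := finSums_three y hs'
    simp only [h] at this
    simp only [Finset.coe_insert, Finset.coe_singleton, mem_insert_iff, mem_singleton_iff]
    tauto
  · gcongr
    exact_mod_cast Finset.card_le_six

lemma vol_zero (A : Set ℕ) (hA : A.Infinite) :
    volume (achievementSet (Aᶜ.indicator ex)) = 0 := by
  set y := Aᶜ.indicator ex with hy
  have hy0 : ∀ n, 0 ≤ y n := fun n => indicator_nonneg (fun n _ => (ex_pos n).le) n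
  have hyle : ∀ n, y n ≤ ex n := fun n => indicator_le_self' (fun n _ => (ex_pos n).le) n
  have hys : Summable y := ex_summable.indicator _
  have hsk : ∀ k, Summable fun j => y (j + k) := fun k => (summable_nat_add_iff k).2 hys
  set μ : ℕ → ENNReal := fun k => volume (achievementSet fun j => y (j + 3 * k)) with hμ
  have hshift : ∀ k, (fun j => y (j + 3 + 3 * k)) = fun j => y (j + 3 * (k + 1)) := by
    intro k; ext j; congr 1; ring
  have h4 : ∀ k, (3 * k ∈ A ∨ 3 * k + 1 ∈ A ∨ 3 * k + 2 ∈ A) → μ k ≤ 4 * μ (k + 1) := by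
    intro k hk
    have := vol_four (y := fun j => y (j + 3 * k)) (fun n => hy0 _) (hsk _) (by
      rcases hk with hk | hk | hk
      · left; simp [hy, hk]
      · right; left; simp [hy, add_comm 1, hk]
      · right; right; simp [hy, add_comm 2, hk])
    simpa only [hshift] using this
  have h6 : ∀ k, μ k ≤ 6 * μ (k + 1) := by
    intro k
    by_cases hk : 3 * k ∈ A ∨ 3 * k + 1 ∈ A ∨ 3 * k + 2 ∈ A
    · refine (h4 k hk).trans ?_
      gcongr
      norm_num
    · push Not at hk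
      have := vol_six (y := fun j => y (j + 3 * k)) (fun n => hy0 _) (hsk _) (by
        simp [hy, add_comm 1, add_comm 2, hk.2.1, hk.2.2, ex1, ex2])
      simpa only [hshift] using this
  have hb : ∀ k, μ k ≤ ENNReal.ofReal (42 / 5 * (1 / 6 : ℝ) ^ k) := by
    intro k
    have h1 : (achievementSet fun j => y (j + 3 * k)) ⊆ Icc 0 (42 / 5 * (1 / 6 : ℝ) ^ k) := by
      intro s hs
      have h2 := mem_bounds (fun j => hy0 (j + 3 * k)) (hsk _) hs
      refine ⟨h2.1, h2.2.trans ?_⟩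
      rw [← ex_tail3]
      exact (hsk _).tsum_le_tsum (fun j => hyle _) ((summable_nat_add_iff _).2 ex_summable)
    simpa using measure_mono (μ := volume) h1
  have hfin : ∀ k, μ k ≠ ⊤ := fun k => ne_top_of_le_ne_top ENNReal.ofReal_ne_top (hb k)
  set ν : ℕ → ℝ := fun k => 6 ^ k * (μ k).toReal with hν
  have hν0 : ∀ k, 0 ≤ ν k := fun k => by positivity
  have hνb : ∀ k, ν k ≤ 42 / 5 := by
    intro k
    have h1 : (μ k).toReal ≤ 42 / 5 * (1 / 6 : ℝ) ^ k :=
      ENNReal.toReal_le_of_le_ofReal (by positivity) (hb k)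
    have e1 : (6 : ℝ) ^ k * (1 / 6 : ℝ) ^ k = 1 := by rw [← mul_pow]; simp
    have h2 : ν k ≤ 6 ^ k * (42 / 5 * (1 / 6 : ℝ) ^ k) := by
      simp only [hν]
      gcongr
    nlinarith
  have hν6 : ∀ k, ν k ≤ ν (k + 1) := by
    intro k
    have h1 : (μ k).toReal ≤ 6 * (μ (k + 1)).toReal := by
      have := ENNReal.toReal_mono (ENNReal.mul_ne_top (by norm_num) (hfin (k + 1))) (h6 k)
      simpa using this
    simp only [hν, pow_succ]
    have : (0 : ℝ) < 6 ^ k := by positivity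
    nlinarith
  have hν4 : ∀ k, (3 * k ∈ A ∨ 3 * k + 1 ∈ A ∨ 3 * k + 2 ∈ A) → ν k ≤ 2 / 3 * ν (k + 1) := by
    intro k hk
    have h1 : (μ k).toReal ≤ 4 * (μ (k + 1)).toReal := by
      have := ENNReal.toReal_mono (ENNReal.mul_ne_top (by norm_num) (hfin (k + 1))) (h4 k hk)
      simpa using this
    simp only [hν, pow_succ]
    have : (0 : ℝ) < 6 ^ k := by positivity
    nlinarith
  have hmono : Monotone ν := monotone_nat_of_le_succ hν6
  have hbdd : BddAbove (range ν) := ⟨42 / 5, by rintro _ ⟨k, rfl⟩; exact hνb k⟩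
  have hL : ∀ k, ν k ≤ 2 / 3 * ⨆ k, ν k := by
    intro k
    obtain ⟨a, haA, ha⟩ := hA.exists_gt (3 * k)
    have h1 := hν4 (a / 3) (by
      have : a = 3 * (a / 3) ∨ a = 3 * (a / 3) + 1 ∨ a = 3 * (a / 3) + 2 := by omega
      rcases this with h | h | h
      · left; rwa [← h]
      · right; left; rwa [← h]
      · right; right; rwa [← h])
    have h2 : ν k ≤ ν (a / 3) := hmono (by omega)
    have h3 : ν (a / 3 + 1) ≤ ⨆ k, ν k := le_ciSup hbdd _
    linarith
  have hL2 : ⨆ k, ν k ≤ 2 / 3 * ⨆ k, ν k := ciSup_le hL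
  have h00 : ν 0 ≤ 0 := by
    have := hL 0
    have := hν0 0
    linarith
  have h01 : (μ 0).toReal = 0 := by
    have h1 := hν0 0
    simp only [hν, pow_zero, one_mul] at h00 h1
    linarith
  have h02 : μ 0 = 0 := by
    rcases (ENNReal.toReal_eq_zero_iff _).1 h01 with h | h
    · exact h
    · exact absurd h (hfin 0)
  simpa [hμ] using h02

lemma restrict_subset (A : Set ℕ) (x : ℕ → ℝ) :
    achievementSet (fun n : {n : ℕ // n ∉ A} => x n) ⊆ achievementSet (Aᶜ.indicator x) := by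
  classical
  rintro s ⟨ε, hε, rfl⟩
  refine ⟨fun n => if h : n ∉ A then ε ⟨n, h⟩ else 0, fun n => ?_, ?_⟩
  · by_cases h : n ∉ A
    · simpa [h] using hε ⟨n, h⟩
    · simp [h]
  · have h1 := tsum_subtype Aᶜ (fun n => (if h : n ∉ A then ε ⟨n, h⟩ else 0) * x n)
    have h2 : ∑' n : {n : ℕ // n ∉ A}, ε n * x n
        = ∑' n : ↥Aᶜ, (if h : (n : ℕ) ∉ A then ε ⟨n, h⟩ else 0) * x n := by
      refine tsum_congr fun n => ?_
      rw [dif_pos n.2]
    rw [h2, h1]
    refine tsum_congr fun n => ?_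
    by_cases h : n ∈ A
    · simp [h]
    · simp [h]

lemma isMinimalRep_ex : IsMinimalRep ex := by
  intro A hA
  refine ⟨fun e => ?_⟩
  have hz : volume (achievementSet (fun n : {n : ℕ // n ∉ A} => ex n)) = 0 :=
    measure_mono_null (restrict_subset A ex) (vol_zero A hA)
  let g : Icc (3 : ℝ) 4 → ℝ := fun t => (e.symm ⟨t, Icc_subset_ex t.2⟩ : ℝ)
  have hg : Continuous g :=
    continuous_subtype_val.comp (e.symm.continuous.comp (continuous_subtype_val.subtype_mk _))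
  have hinj : Function.Injective g := by
    intro s t hst
    have h1 := e.symm.injective (Subtype.ext hst)
    exact Subtype.ext (Subtype.mk.inj h1)
  haveI : PreconnectedSpace (Icc (3 : ℝ) 4) := Subtype.preconnectedSpace isPreconnected_Icc
  have hpre : IsPreconnected (range g) := isPreconnected_range hg
  have hsub : range g ⊆ achievementSet (fun n : {n : ℕ // n ∉ A} => ex n) := by
    rintro _ ⟨t, rfl⟩
    exact (e.symm ⟨t, Icc_subset_ex t.2⟩).2
  have hne : g ⟨3, by norm_num⟩ ≠ g ⟨4, by norm_num⟩ := by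
    intro h
    have := congrArg Subtype.val (hinj h)
    norm_num at this
  have hu : uIcc (g ⟨3, by norm_num⟩) (g ⟨4, by norm_num⟩) ⊆ range g :=
    hpre.ordConnected.uIcc_subset (mem_range_self _) (mem_range_self _)
  have h0 := measure_mono_null (hu.trans hsub) hz
  rw [Real.volume_interval, ENNReal.ofReal_eq_zero] at h0
  exact hne (sub_eq_zero.1 (abs_nonpos_iff.1 h0)).symm

theorem main : ∃ x : ℕ → ℝ, (∀ n, 0 < x n) ∧ Antitone x ∧ Summable x ∧
    IsCantorval (achievementSet x) ∧ IsMinimalRep x ∧ {n | x n < tail x (n + 1)}.Infinite :=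
  ⟨ex, ex_pos, ex_antitone, ex_summable, isCantorval_ex, isMinimalRep_ex, ex_infinite⟩

end Pool.Agent.MP_61d686_an
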